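import Pool.Agent.V1120.VG.Count

/-! The number of visibility graphs of simple polygons with `n` vertices is at least
`2 ^ ((1/2 - ε) n log₂ n)` for large `n`. -/

namespace Pool.Agent.Results.MP_af711c_co.VisibilityCount

open Pool.Agent.V1120.VG

theorem result (ε : ℝ) (hε : 0 < ε) : ∀ᶠ n : ℕ in Filter.atTop,
    (1 / 2 - ε) * (n * Real.logb 2 n) ≤ Real.logb 2 (numVis n) ∧
    (1 / 2 - ε) * (n * Real.logb 2 n) ≤ Real.logb 2 (numVisStrict n) :=
  main ε hε

end Pool.Agent.Results.MP_af711c_co.VisibilityCount
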